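import Pool.Agent.Helper16.CB.Defs

/-! Project CB, A8: the local condition is stable under multiplication by squares. -/

set_option autoImplicit false

namespace Pool.Agent.Helper79.CB

open Pool.Agent.Helper16.CB

theorem val_iff {R : Type*} [CommRing R] [IsDedekindDomain R] {q : Ideal R} {a : R} {n : ℕ} :
    Val q a n ↔ emultiplicity q (Ideal.span {a}) = n := by
  rw [emultiplicity_eq_coe, Ideal.dvd_span_singleton, Ideal.dvd_span_singleton]
  rfl

theorem val_exists {R : Type*} [CommRing R] [IsDedekindDomain R] {q : Ideal R} (hq : q.IsPrime)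
    {a : R} (ha : a ≠ 0) : ∃ n, Val q a n := by
  have hne : Ideal.span {a} ≠ (⊥ : Ideal R) := by
    rw [Ne, Ideal.span_singleton_eq_bot]
    exact ha
  have hu : ¬ IsUnit q := fun h => hq.ne_top (Ideal.isUnit_iff.mp h)
  have hf : FiniteMultiplicity q (Ideal.span {a}) :=
    FiniteMultiplicity.of_not_isUnit hu hne
  exact ⟨multiplicity q (Ideal.span {a}), val_iff.mpr hf.emultiplicity_eq_multiplicity⟩

theorem val_mul {R : Type*} [CommRing R] [IsDedekindDomain R] {q : Ideal R} (hq : q.IsPrime)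
    (hq0 : q ≠ ⊥) {a b : R} {m n : ℕ} (ha : Val q a m) (hb : Val q b n) :
    Val q (a * b) (m + n) := by
  rw [val_iff] at *
  rw [← Ideal.span_singleton_mul_span_singleton,
    emultiplicity_mul (Ideal.prime_of_isPrime hq0 hq), ha, hb]
  push_cast
  rfl

/-- A8 -/
theorem lc_mul {R : Type*} [CommRing R] [IsDedekindDomain R] {q : Ideal R} (hq : q.IsPrime)
    (hq0 : q ≠ ⊥) {a b η θ : R} (hη : η ≠ 0) (hθ : θ ≠ 0) (h : LC q a b) :
    LC q (a * η ^ 2) (b * θ ^ 2) := by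
  obtain ⟨α, β, hα, hβ, h⟩ := h
  obtain ⟨m, hm⟩ := val_exists hq hη
  obtain ⟨l, hl⟩ := val_exists hq hθ
  have h1 : Val q (a * η ^ 2) (α + 2 * m) := by
    have := val_mul hq hq0 hα (val_mul hq hq0 hm hm)
    rw [← two_mul, ← sq] at this
    exact this
  have h2 : Val q (b * θ ^ 2) (β + 2 * l) := by
    have := val_mul hq hq0 hβ (val_mul hq hq0 hl hl)
    rw [← two_mul, ← sq] at this
    exact this
  have em : Even (2 * m) := even_two_mul m
  have el : Even (2 * l) := even_two_mul l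
  have hη2 : η ^ 2 ∈ q ^ (2 * m) := by
    have := Ideal.pow_mem_pow hm.1 2
    rwa [← pow_mul, mul_comm] at this
  have hθ2 : θ ^ 2 ∈ q ^ (2 * l) := by
    have := Ideal.pow_mem_pow hl.1 2
    rwa [← pow_mul, mul_comm] at this
  refine ⟨α + 2 * m, β + 2 * l, h1, h2, ?_⟩
  simp only [Nat.even_add, em, el, iff_true]
  rcases h with h | ⟨h3, h4, x, hx⟩ | ⟨h3, h4, x, hx⟩ | ⟨h3, h4, x, hx⟩
  · exact Or.inl h
  · refine Or.inr (Or.inl ⟨h3, h4, x * θ, ?_⟩)
    have e : b * θ ^ 2 - (x * θ) ^ 2 = (b - x ^ 2) * θ ^ 2 := by ring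
    have e2 : q ^ (β + 2 * l + 1) = q ^ (β + 1) * q ^ (2 * l) := by
      rw [← pow_add]
      congr 1
      ring
    rw [e, e2]
    exact Ideal.mul_mem_mul hx hθ2
  · refine Or.inr (Or.inr (Or.inl ⟨h3, h4, x * η, ?_⟩))
    have e : a * η ^ 2 - (x * η) ^ 2 = (a - x ^ 2) * η ^ 2 := by ring
    have e2 : q ^ (α + 2 * m + 1) = q ^ (α + 1) * q ^ (2 * m) := by
      rw [← pow_add]
      congr 1
      ring
    rw [e, e2]
    exact Ideal.mul_mem_mul hx hη2
  · refine Or.inr (Or.inr (Or.inr ⟨h3, h4, x * (η * θ), ?_⟩))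
    have e : -(a * η ^ 2 * (b * θ ^ 2)) - (x * (η * θ)) ^ 2 =
        (-(a * b) - x ^ 2) * (η ^ 2 * θ ^ 2) := by ring
    have e2 : q ^ (α + 2 * m + (β + 2 * l) + 1) = q ^ (α + β + 1) * (q ^ (2 * m) * q ^ (2 * l)) := by
      rw [← pow_add, ← pow_add]
      congr 1
      ring
    rw [e, e2]
    exact Ideal.mul_mem_mul hx (Ideal.mul_mem_mul hη2 hθ2)

end Pool.Agent.Helper79.CB
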