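import Pool.Agent.Helper4.CB.FAC

/-!
# Project CB, piece CORE: points without bad primes (proof)
-/

set_option autoImplicit false

namespace Pool.Agent.Helper79.CB

open Finset Pool.Agent.Helper4.CB

/-- integer root -/
theorem exists_root (B X : ℕ) (hB : 1 ≤ B) : ∃ z : ℕ, z ^ B ≤ X ∧ X < (z + 1) ^ B := by
  classical
  refine ⟨Nat.findGreatest (fun z => z ^ B ≤ X) X, ?_, ?_⟩
  · have h : (fun z : ℕ => z ^ B ≤ X) 0 := by
      show 0 ^ B ≤ X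
      rw [Nat.zero_pow hB]
      exact Nat.zero_le X
    exact Nat.findGreatest_spec (P := fun z => z ^ B ≤ X) (Nat.zero_le X) h
  · by_contra hlt
    push Not at hlt
    have h1 : Nat.findGreatest (fun z => z ^ B ≤ X) X + 1 ≤ X := by
      calc Nat.findGreatest (fun z => z ^ B ≤ X) X + 1
          = (Nat.findGreatest (fun z => z ^ B ≤ X) X + 1) ^ 1 := by ring
        _ ≤ (Nat.findGreatest (fun z => z ^ B ≤ X) X + 1) ^ B :=
            Nat.pow_le_pow_right (by omega) hB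
        _ ≤ X := hlt
    exact Nat.findGreatest_is_greatest (P := fun z => z ^ B ≤ X) (n := X)
      (k := Nat.findGreatest (fun z => z ^ B ≤ X) X + 1) (by omega) h1 hlt

theorem comax {N : ℕ} {G : Type} [AddCommGroup G] (S : Sys N G) {Γ0 Λ : AddSubgroup G}
    (h0 : ∀ T : Finset S.Q, Γ0 ⊔ T.inf S.Γ = ⊤) {q : S.Q} (hq : S.Γ q ≤ Λ) (T : Finset S.Q)
    (hT : q ∉ T) : (Γ0 ⊓ Λ) ⊔ T.inf S.Γ = ⊤ := by
  classical
  have h1 : Γ0 ⊔ (S.Γ q ⊓ T.inf S.Γ) = ⊤ := by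
    have := h0 (insert q T)
    rwa [Finset.inf_insert] at this
  have h2 := S.com T q hT
  have h3 : (Γ0 ⊓ S.Γ q) ⊔ T.inf S.Γ = ⊤ := sup_of_sup h1 h2
  rw [← top_le_iff, ← h3]
  exact sup_le_sup_right (inf_le_inf_left _ hq) _

open Classical in
theorem upper_p {N : ℕ} {G : Type} [AddCommGroup G] (S : Sys N G) (K zs : ℕ)
    (hs : ∀ z : ℕ, zs ≤ z → ∀ (Λ : AddSubgroup G) (ρ X : ℕ) (τ x0 : G), Λ.index ≠ 0 →
      (∀ T : Finset S.Q, T ⊆ S.le z → Λ ⊔ T.inf S.Γ = ⊤) → Rad S.e Λ ρ →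
      z ^ K * (ρ + 1) ≤ X →
      |(((bx S.e τ X).filter (fun g => g - x0 ∈ Λ ∧ ∀ q ∈ S.le z, g ∉ S.E q)).card : ℝ) -
          (X : ℝ) ^ N / Λ.index * S.V z| ≤ 1 / 4 * ((X : ℝ) ^ N / Λ.index * S.V z))
    {Γ0 Λ : AddSubgroup G} (hΓ0 : Γ0.index ≠ 0) (h0 : ∀ T : Finset S.Q, Γ0 ⊔ T.inf S.Γ = ⊤)
    {q : S.Q} (hq : S.Γ q ≤ Λ) {z : ℕ} (hz : zs ≤ z) (hqz : z < S.nm q) {ρ X : ℕ}
    (hρ : Rad S.e Λ ρ) (hX : z ^ K * (Γ0.index * (ρ + 1) + 1) ≤ X) (hΛ : Λ.index ≠ 0)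
    (hV : 0 ≤ S.V z) (τ x0 : G) :
    (((bx S.e τ X).filter (fun g => g - x0 ∈ Γ0 ∧ (∀ q ∈ S.le z, g ∉ S.E q) ∧ g ∈ Λ)).card : ℝ) ≤
      5 / 4 * ((X : ℝ) ^ N / (Γ0.index * Λ.index) * S.V z) := by
  rcases ((bx S.e τ X).filter (fun g => g - x0 ∈ Γ0 ∧ (∀ q ∈ S.le z, g ∉ S.E q) ∧
      g ∈ Λ)).eq_empty_or_nonempty with he | ⟨g1, hg1⟩
  · rw [he, Finset.card_empty]
    push_cast
    positivity
  rw [Finset.mem_filter] at hg1
  have hsup : Γ0 ⊔ Λ = ⊤ := by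
    have h1 := h0 {q}
    rw [Finset.inf_singleton] at h1
    rw [← top_le_iff, ← h1]
    exact sup_le_sup_left hq _
  have hidx : (Γ0 ⊓ Λ).index = Γ0.index * Λ.index := index_inf hsup hΓ0 hΛ
  have hidx0 : (Γ0 ⊓ Λ).index ≠ 0 := by
    rw [hidx]
    exact mul_ne_zero hΓ0 hΛ
  have h1 := hs z hz (Γ0 ⊓ Λ) (Γ0.index * (ρ + 1)) X τ g1 hidx0
    (fun T hT => comax S h0 hq T (fun hc => by
      have := S.mem_le.mp (hT hc)
      omega)) (rad_inf_index hρ hΓ0) hX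
  rw [abs_le] at h1
  have h2 : (((bx S.e τ X).filter (fun g => g - x0 ∈ Γ0 ∧ (∀ q ∈ S.le z, g ∉ S.E q) ∧
      g ∈ Λ)).card : ℝ) ≤
      ((bx S.e τ X).filter (fun g => g - g1 ∈ Γ0 ⊓ Λ ∧ ∀ q ∈ S.le z, g ∉ S.E q)).card := by
    exact_mod_cast Finset.card_le_card (fun g hg => by
      rw [Finset.mem_filter] at hg ⊢
      refine ⟨hg.1, ⟨?_, Λ.sub_mem hg.2.2.2 hg1.2.2.2⟩, hg.2.2.1⟩
      have := Γ0.sub_mem hg.2.1 hg1.2.1
      simpa using this)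
  have h3 : ((Γ0 ⊓ Λ).index : ℝ) = Γ0.index * Λ.index := by exact_mod_cast hidx
  rw [h3] at h1
  linarith [h1.2]

open Classical in
theorem fib_sum {n : ℕ} {G : Type} [AddCommGroup G] {S : Sys (2 * n) G} (F : Fac n S)
    (P : Finset F.P) (Qs : Finset S.Q) (h : ∀ p ∈ P, F.un p ∈ Qs) :
    ∑ p ∈ P, (1 : ℝ) / F.pn p ≤ 2 * ∑ q ∈ Qs, (1 : ℝ) / S.nm q := by
  have h1 : ∑ p ∈ P, (1 : ℝ) / F.pn p ≤ ∑ p ∈ P, (1 : ℝ) / S.nm (F.un p) := by
    refine Finset.sum_le_sum (fun p _ => ?_)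
    have h2 : (0 : ℝ) < S.nm (F.un p) := by
      have := S.two_le (F.un p)
      exact_mod_cast (by omega : 0 < S.nm (F.un p))
    exact one_div_le_one_div_of_le h2 (by exact_mod_cast F.nm_le p)
  refine h1.trans ?_
  rw [Finset.sum_comp (fun q => (1 : ℝ) / S.nm q) F.un, Finset.mul_sum]
  calc ∑ q ∈ P.image F.un, (P.filter (fun p => F.un p = q)).card • ((1 : ℝ) / S.nm q)
      ≤ ∑ q ∈ P.image F.un, 2 * ((1 : ℝ) / S.nm q) := by
        refine Finset.sum_le_sum (fun q _ => ?_)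
        rw [nsmul_eq_mul]
        refine mul_le_mul_of_nonneg_right ?_ (by positivity)
        have : (P.filter (fun p => F.un p = q)).card ≤ 2 := by
          refine le_trans ?_ (F.fib q)
          rw [← Set.ncard_coe_finset]
          refine Set.ncard_le_ncard ?_ (F.fib_fin q)
          intro p hp
          exact (Finset.mem_filter.mp (Finset.mem_coe.mp hp)).2
        exact_mod_cast this
    _ ≤ ∑ q ∈ Qs, 2 * ((1 : ℝ) / S.nm q) := by
        refine Finset.sum_le_sum_of_subset_of_nonneg ?_ (fun _ _ _ => by positivity)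
        intro q hq
        obtain ⟨p, hp, rfl⟩ := Finset.mem_image.mp hq
        exact h p hp

open Classical in
theorem bad_tail {N : ℕ} {G : Type} [AddCommGroup G] (S : Sys N G) (bad : Set S.Q) (ε : ℝ)
    (hb : ∀ x : ℕ, 1 ≤ x → ∑ q ∈ (S.le x).filter (fun q => q ∈ bad),
      Real.log (S.nm q) / S.nm q ≤ ε * Real.log x) {z0 M : ℕ} (hz : 2 ≤ z0) (hM : 1 ≤ M) :
    ∑ q ∈ (S.le M).filter (fun q => q ∈ bad ∧ z0 < S.nm q), (1 : ℝ) / S.nm q ≤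
      ε * Real.log M / Real.log z0 := by
  have hl : 0 < Real.log z0 := Real.log_pos (by exact_mod_cast hz)
  rw [le_div_iff₀ hl, Finset.sum_mul]
  refine le_trans ?_ (hb M hM)
  calc ∑ q ∈ (S.le M).filter (fun q => q ∈ bad ∧ z0 < S.nm q), (1 : ℝ) / S.nm q * Real.log z0
      ≤ ∑ q ∈ (S.le M).filter (fun q => q ∈ bad ∧ z0 < S.nm q),
          Real.log (S.nm q) / S.nm q := by
        refine Finset.sum_le_sum (fun q hq => ?_)
        have h2 := (Finset.mem_filter.mp hq).2.2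
        have h3 : (0 : ℝ) < S.nm q := by exact_mod_cast (by omega : 0 < S.nm q)
        rw [div_mul_eq_mul_div, one_mul]
        refine div_le_div_of_nonneg_right ?_ h3.le
        exact Real.log_le_log (by exact_mod_cast (by omega : 0 < z0)) (by exact_mod_cast h2.le)
    _ ≤ _ := by
        refine Finset.sum_le_sum_of_subset_of_nonneg ?_ (fun q _ _ => ?_)
        · intro q hq
          rw [Finset.mem_filter] at hq ⊢
          exact ⟨hq.1, hq.2.1⟩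
        · exact div_nonneg (Real.log_natCast_nonneg _) (Nat.cast_nonneg _)

open Classical in
/-- the points with a bad prime -/
theorem bad_part {n k : ℕ} {G : Type} [AddCommGroup G] (S : Sys (2 * n) G) (K zs : ℕ)
    (hs : ∀ z : ℕ, zs ≤ z → ∀ (Λ : AddSubgroup G) (ρ X : ℕ) (τ x0 : G), Λ.index ≠ 0 →
      (∀ T : Finset S.Q, T ⊆ S.le z → Λ ⊔ T.inf S.Γ = ⊤) → Rad S.e Λ ρ →
      z ^ K * (ρ + 1) ≤ X →
      |(((bx S.e τ X).filter (fun g => g - x0 ∈ Λ ∧ ∀ q ∈ S.le z, g ∉ S.E q)).card : ℝ) -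
          (X : ℝ) ^ (2 * n) / Λ.index * S.V z| ≤ 1 / 4 * ((X : ℝ) ^ (2 * n) / Λ.index * S.V z))
    (bad : Set S.Q) (F : Fin k → Fac n S) {Γ0 : AddSubgroup G} (hΓ0 : Γ0.index ≠ 0)
    (h0 : ∀ T : Finset S.Q, Γ0 ⊔ T.inf S.Γ = ⊤) {z z0 t C FC X M : ℕ} (hz : zs ≤ z)
    (hzz : z ≤ z0) (hz0 : 0 < z0) (hV : 0 ≤ S.V z) (hFC : ∀ l, (F l).C ≤ FC)
    (hX : z ^ K * (Γ0.index * (FC * ((C + 1) * (t + 1)) + 1) + 1) ≤ X)
    (htX : ∀ l, C * X ^ ((F l).d * n) ≤ z0 * ((C + 1) * (t + 1)) ^ ((F l).d * n))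
    (τ x0 : G)
    (hcof : ∀ g ∈ bx S.e τ X, g - x0 ∈ Γ0 → ∀ l, ∀ p : (F l).P,
      (F l).un p ∈ bad → g ∈ (F l).Λ p → ∃ q, g ∈ S.E q ∧
        S.nm q * (F l).pn p ≤ C * X ^ ((F l).d * n))
    (hM : ∀ l, C * X ^ ((F l).d * n) ≤ z0 * M) :
    (((bx S.e τ X).filter (fun g => g - x0 ∈ Γ0 ∧ (∀ q ∈ S.le z0, g ∉ S.E q) ∧
        ∃ l, ∃ p : (F l).P, (F l).un p ∈ bad ∧ g ∈ (F l).Λ p ∧ g ∈ S.E ((F l).un p))).card : ℝ) ≤
      5 / 4 * ((X : ℝ) ^ (2 * n) / Γ0.index * S.V z) *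
        (k * (2 * ∑ q ∈ (S.le M).filter (fun q => q ∈ bad ∧ z0 < S.nm q), (1 : ℝ) / S.nm q)) := by
  -- the relevant places
  have hfin : ∀ l : Fin k, {p : (F l).P | (F l).un p ∈ bad ∧ z0 < S.nm ((F l).un p) ∧
      (F l).pn p ≤ M ∧ (F l).pn p ≤ ((C + 1) * (t + 1)) ^ ((F l).d * n)}.Finite := by
    intro l
    refine Set.Finite.subset (Set.Finite.biUnion (S.le M).finite_toSet
      (fun q _ => (F l).fib_fin q)) ?_
    intro p hp
    rw [Set.mem_iUnion₂]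
    refine ⟨(F l).un p, ?_, rfl⟩
    rw [Finset.mem_coe, S.mem_le]
    exact le_trans ((F l).nm_le p) hp.2.2.1
  have hsub : (bx S.e τ X).filter (fun g => g - x0 ∈ Γ0 ∧ (∀ q ∈ S.le z0, g ∉ S.E q) ∧
        ∃ l, ∃ p : (F l).P, (F l).un p ∈ bad ∧ g ∈ (F l).Λ p ∧ g ∈ S.E ((F l).un p)) ⊆
      (Finset.univ : Finset (Fin k)).biUnion (fun l => (hfin l).toFinset.biUnion (fun p =>
        (bx S.e τ X).filter (fun g => g - x0 ∈ Γ0 ∧ (∀ q ∈ S.le z, g ∉ S.E q) ∧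
          g ∈ (F l).Λ p))) := by
    intro g hg
    rw [Finset.mem_filter] at hg
    obtain ⟨hgb, hgΓ, hgE, l, p, hpb, hgΛ, hgp⟩ := hg
    rw [Finset.mem_biUnion]
    refine ⟨l, Finset.mem_univ _, ?_⟩
    rw [Finset.mem_biUnion]
    refine ⟨p, ?_, ?_⟩
    · rw [Set.Finite.mem_toFinset]
      obtain ⟨q, hqE, hq⟩ := hcof g hgb hgΓ l p hpb hgΛ
      have hqz : z0 < S.nm q := by
        by_contra hc
        exact hgE q (S.mem_le.mpr (not_lt.mp hc)) hqE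
      have h1 : z0 * (F l).pn p ≤ C * X ^ ((F l).d * n) :=
        le_trans (Nat.mul_le_mul_right _ hqz.le) hq
      refine ⟨hpb, ?_, ?_, ?_⟩
      · by_contra hc
        exact hgE _ (S.mem_le.mpr (not_lt.mp hc)) hgp
      · exact Nat.le_of_mul_le_mul_left (le_trans h1 (hM l)) hz0
      · exact Nat.le_of_mul_le_mul_left (le_trans h1 (htX l)) hz0
    · rw [Finset.mem_filter]
      refine ⟨hgb, hgΓ, fun q hq => hgE q (S.mem_le.mpr (le_trans (S.mem_le.mp hq) hzz)), hgΛ⟩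
  have hcard : ∀ l : Fin k, ∀ p ∈ (hfin l).toFinset,
      (((bx S.e τ X).filter (fun g => g - x0 ∈ Γ0 ∧ (∀ q ∈ S.le z, g ∉ S.E q) ∧
          g ∈ (F l).Λ p)).card : ℝ) ≤
        5 / 4 * ((X : ℝ) ^ (2 * n) / Γ0.index * S.V z) * (1 / (F l).pn p) := by
    intro l p hp
    rw [Set.Finite.mem_toFinset] at hp
    have hp0 : 0 < (F l).pn p := by
      have := (F l).nm_le p
      have := S.two_le ((F l).un p)
      omega
    have hidx : ((F l).Λ p).index ≠ 0 := by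
      rw [(F l).index p]
      omega
    have hrad : Rad S.e ((F l).Λ p) ((F l).C * ((C + 1) * (t + 1))) :=
      (F l).rad p _ hp.2.2.2
    have hX' : z ^ K * (Γ0.index * ((F l).C * ((C + 1) * (t + 1)) + 1) + 1) ≤ X := by
      refine le_trans ?_ hX
      gcongr
      exact hFC l
    have h1 := upper_p S K zs hs hΓ0 h0 ((F l).le p) hz (lt_of_le_of_lt hzz hp.2.1) hrad hX'
      hidx hV τ x0
    refine h1.trans (le_of_eq ?_)
    rw [(F l).index p]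
    have : (Γ0.index : ℝ) ≠ 0 := by exact_mod_cast hΓ0
    have : ((F l).pn p : ℝ) ≠ 0 := by exact_mod_cast hp0.ne'
    field_simp
  have hc1 : (((bx S.e τ X).filter (fun g => g - x0 ∈ Γ0 ∧ (∀ q ∈ S.le z0, g ∉ S.E q) ∧
        ∃ l, ∃ p : (F l).P, (F l).un p ∈ bad ∧ g ∈ (F l).Λ p ∧ g ∈ S.E ((F l).un p))).card : ℝ) ≤
      ∑ l : Fin k, ∑ p ∈ (hfin l).toFinset,
        (((bx S.e τ X).filter (fun g => g - x0 ∈ Γ0 ∧ (∀ q ∈ S.le z, g ∉ S.E q) ∧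
          g ∈ (F l).Λ p)).card : ℝ) := by
    have h1 := (Finset.card_le_card hsub).trans (Finset.card_biUnion_le)
    have h2 := h1.trans (Finset.sum_le_sum (fun l _ => Finset.card_biUnion_le))
    exact_mod_cast h2
  refine hc1.trans ?_
  have hpos : 0 ≤ 5 / 4 * ((X : ℝ) ^ (2 * n) / Γ0.index * S.V z) := by positivity
  calc ∑ l : Fin k, ∑ p ∈ (hfin l).toFinset,
        (((bx S.e τ X).filter (fun g => g - x0 ∈ Γ0 ∧ (∀ q ∈ S.le z, g ∉ S.E q) ∧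
          g ∈ (F l).Λ p)).card : ℝ)
      ≤ ∑ l : Fin k, ∑ p ∈ (hfin l).toFinset,
          5 / 4 * ((X : ℝ) ^ (2 * n) / Γ0.index * S.V z) * (1 / (F l).pn p) :=
        Finset.sum_le_sum (fun l _ => Finset.sum_le_sum (fun p hp => hcard l p hp))
    _ = ∑ l : Fin k, 5 / 4 * ((X : ℝ) ^ (2 * n) / Γ0.index * S.V z) *
          ∑ p ∈ (hfin l).toFinset, 1 / ((F l).pn p : ℝ) := by
        refine Finset.sum_congr rfl (fun l _ => ?_)
        rw [Finset.mul_sum]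
    _ ≤ ∑ _l : Fin k, 5 / 4 * ((X : ℝ) ^ (2 * n) / Γ0.index * S.V z) *
          (2 * ∑ q ∈ (S.le M).filter (fun q => q ∈ bad ∧ z0 < S.nm q), (1 : ℝ) / S.nm q) := by
        refine Finset.sum_le_sum (fun l _ => mul_le_mul_of_nonneg_left ?_ hpos)
        refine fib_sum (F l) _ _ (fun p hp => ?_)
        rw [Set.Finite.mem_toFinset] at hp
        rw [Finset.mem_filter, S.mem_le]
        exact ⟨le_trans ((F l).nm_le p) hp.2.2.1, hp.1, hp.2.1⟩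
    _ = _ := by
        rw [Finset.sum_const, Finset.card_univ, Fintype.card_fin, nsmul_eq_mul]
        ring

end Pool.Agent.Helper79.CB
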