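import Pool.Agent.Helper4.CB.SIFT

/-!
# Project CB, piece CORE: common divisors
-/

set_option autoImplicit false

namespace Pool.Agent.Helper79.CB

open Finset Pool.Agent.Helper4.CB

open Classical in
theorem gcd_part {n : ℕ} (hn : 1 ≤ n) {G : Type} [AddCommGroup G] (S : Sys (2 * n) G)
    (C : ℕ) (τ : G) (X z : ℕ) (hX : 1 ≤ X) (hz : 1 ≤ z)
    (hbox : ∀ g ∈ bx S.e τ X, ∀ q, g ∈ S.Γ q → S.nm q ≤ C * X ^ n)
    (hrad : ∀ q, ∀ ρ : ℕ, S.nm q ≤ ρ ^ n → Rad S.e (S.Γ q) (C * ρ))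
    (hsum : ∀ T : Finset S.Q, ∑ q ∈ T, (S.nm q : ℝ) ^ (-(3 / 2) : ℝ) ≤ C) :
    (((bx S.e τ X).filter (fun g => ∃ q, z < S.nm q ∧ g ∈ S.Γ q)).card : ℝ) ≤
      (1 + 2 * C * (C + 1)) ^ (2 * n) * C * (X : ℝ) ^ (2 * n) * (z : ℝ) ^ (-(1 / 2) : ℝ) := by
  have hzr : (0 : ℝ) < z := by exact_mod_cast hz
  have hsub : (bx S.e τ X).filter (fun g => ∃ q, z < S.nm q ∧ g ∈ S.Γ q) ⊆
      ((S.le (C * X ^ n)).filter (fun q => z < S.nm q)).biUnion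
        (fun q => (bx S.e τ X).filter (fun g => g - 0 ∈ S.Γ q)) := by
    intro g hg
    rw [Finset.mem_filter] at hg
    obtain ⟨hgb, q, hzq, hgq⟩ := hg
    rw [Finset.mem_biUnion]
    refine ⟨q, ?_, ?_⟩
    · rw [Finset.mem_filter, S.mem_le]
      exact ⟨hbox g hgb q hgq, hzq⟩
    · rw [Finset.mem_filter, sub_zero]
      exact ⟨hgb, hgq⟩
  have hcard : ∀ q ∈ (S.le (C * X ^ n)).filter (fun q => z < S.nm q),
      (((bx S.e τ X).filter (fun g => g - 0 ∈ S.Γ q)).card : ℝ) ≤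
        (1 + 2 * C * (C + 1)) ^ (2 * n) * (X : ℝ) ^ (2 * n) * (z : ℝ) ^ (-(1 / 2) : ℝ) *
          (S.nm q : ℝ) ^ (-(3 / 2) : ℝ) := by
    intro q hq
    rw [Finset.mem_filter, S.mem_le] at hq
    have h2 := S.two_le q
    have hnr : (0 : ℝ) < S.nm q := by exact_mod_cast (by omega : 0 < S.nm q)
    have h3 : S.nm q ≤ ((C + 1) * X) ^ n := by
      refine le_trans hq.1 ?_
      rw [mul_pow]
      refine Nat.mul_le_mul_right _ ?_
      exact le_trans (Nat.le_succ C) (Nat.le_self_pow (by omega) _)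
    have hidx : (S.Γ q).index ≠ 0 := by
      rw [S.index q]
      positivity
    have h4 := (count_coset S.e (S.Γ q) hidx _ X (hrad q _ h3) τ 0).2
    rw [S.index q] at h4
    have h5 : X + 2 * (C * ((C + 1) * X)) = (1 + 2 * C * (C + 1)) * X := by ring
    rw [h5, mul_pow] at h4
    have h6 : (S.nm q : ℝ) ^ 2 * (((bx S.e τ X).filter (fun g => g - 0 ∈ S.Γ q)).card : ℝ) ≤
        (1 + 2 * C * (C + 1)) ^ (2 * n) * (X : ℝ) ^ (2 * n) := by exact_mod_cast h4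
    have h7 : (S.nm q : ℝ) ^ (-(2 : ℝ)) * (S.nm q : ℝ) ^ 2 = 1 := by
      rw [← Real.rpow_natCast (S.nm q : ℝ) 2, ← Real.rpow_add hnr]
      norm_num
    have h8 : (S.nm q : ℝ) ^ (-(2 : ℝ)) ≤
        (z : ℝ) ^ (-(1 / 2) : ℝ) * (S.nm q : ℝ) ^ (-(3 / 2) : ℝ) := by
      have h9 : (S.nm q : ℝ) ^ (-(2 : ℝ)) =
          (S.nm q : ℝ) ^ (-(1 / 2) : ℝ) * (S.nm q : ℝ) ^ (-(3 / 2) : ℝ) := by
        rw [← Real.rpow_add hnr]
        norm_num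
      rw [h9]
      refine mul_le_mul_of_nonneg_right ?_ (Real.rpow_nonneg hnr.le _)
      exact Real.rpow_le_rpow_of_nonpos hzr (by exact_mod_cast hq.2.le) (by norm_num)
    calc (((bx S.e τ X).filter (fun g => g - 0 ∈ S.Γ q)).card : ℝ)
        = (S.nm q : ℝ) ^ (-(2 : ℝ)) * ((S.nm q : ℝ) ^ 2 *
            (((bx S.e τ X).filter (fun g => g - 0 ∈ S.Γ q)).card : ℝ)) := by
          rw [← mul_assoc, h7, one_mul]
      _ ≤ (S.nm q : ℝ) ^ (-(2 : ℝ)) * ((1 + 2 * C * (C + 1)) ^ (2 * n) * (X : ℝ) ^ (2 * n)) :=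
          mul_le_mul_of_nonneg_left h6 (Real.rpow_nonneg hnr.le _)
      _ ≤ ((z : ℝ) ^ (-(1 / 2) : ℝ) * (S.nm q : ℝ) ^ (-(3 / 2) : ℝ)) *
            ((1 + 2 * C * (C + 1)) ^ (2 * n) * (X : ℝ) ^ (2 * n)) :=
          mul_le_mul_of_nonneg_right h8 (by positivity)
      _ = _ := by ring
  calc (((bx S.e τ X).filter (fun g => ∃ q, z < S.nm q ∧ g ∈ S.Γ q)).card : ℝ)
      ≤ ∑ q ∈ (S.le (C * X ^ n)).filter (fun q => z < S.nm q),
          (((bx S.e τ X).filter (fun g => g - 0 ∈ S.Γ q)).card : ℝ) := by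
        exact_mod_cast (Finset.card_le_card hsub).trans Finset.card_biUnion_le
    _ ≤ ∑ q ∈ (S.le (C * X ^ n)).filter (fun q => z < S.nm q),
          (1 + 2 * C * (C + 1)) ^ (2 * n) * (X : ℝ) ^ (2 * n) * (z : ℝ) ^ (-(1 / 2) : ℝ) *
          (S.nm q : ℝ) ^ (-(3 / 2) : ℝ) := Finset.sum_le_sum hcard
    _ = (1 + 2 * C * (C + 1)) ^ (2 * n) * (X : ℝ) ^ (2 * n) * (z : ℝ) ^ (-(1 / 2) : ℝ) *
          ∑ q ∈ (S.le (C * X ^ n)).filter (fun q => z < S.nm q),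
            (S.nm q : ℝ) ^ (-(3 / 2) : ℝ) := by rw [Finset.mul_sum]
    _ ≤ (1 + 2 * C * (C + 1)) ^ (2 * n) * (X : ℝ) ^ (2 * n) * (z : ℝ) ^ (-(1 / 2) : ℝ) * C := by
        refine mul_le_mul_of_nonneg_left (hsum _) ?_
        have := Real.rpow_nonneg hzr.le (-(1 / 2) : ℝ)
        positivity
    _ = _ := by ring

end Pool.Agent.Helper79.CB
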