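import Pool.Agent.Helper79.CB.Core
import Pool.Agent.Helper79.CB.Gcd

/-!
# Project CB, piece CORE: final assembly
-/

set_option autoImplicit false

namespace Pool.Agent.Helper79.CB

open Finset Pool.Agent.Helper4.CB

/-- the numerical conditions for a large root `z` -/
theorem nat_conds {n K C c1 I0 FC X z t d : ℕ} (hn : 1 ≤ n) (hd : 1 ≤ d) (hd2 : d ≤ 2)
    (hz2 : 2 * c1 ≤ z) (hz1 : 1 ≤ z) (hc1 : c1 = I0 * (FC * (C + 1) + 1) + 1)
    (hzX : z ^ (4 * n * (K + 1) * (K + 1) + 2) ≤ X) (ht : t = X / z ^ (2 * (K + 1))) :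
    z ^ K * (I0 * (FC * ((C + 1) * (t + 1)) + 1) + 1) ≤ X ∧
    C * X ^ (d * n) ≤ z ^ (4 * n * (K + 1)) * ((C + 1) * (t + 1)) ^ (d * n) := by
  have hzm : 0 < z ^ (2 * (K + 1)) := Nat.pow_pos hz1
  have hmB : 2 * (K + 1) ≤ 4 * n * (K + 1) * (K + 1) + 2 := by
    have h1 : K + 1 ≤ n * (K + 1) * (K + 1) := by
      calc K + 1 = 1 * (K + 1) * 1 := by ring
        _ ≤ n * (K + 1) * (K + 1) := by
          gcongr
          omega
    nlinarith
  have hmX : z ^ (2 * (K + 1)) ≤ X := le_trans (Nat.pow_le_pow_right hz1 hmB) hzX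
  have hdm := Nat.div_add_mod X (z ^ (2 * (K + 1)))
  rw [← ht] at hdm
  have hmod := Nat.mod_lt X hzm
  constructor
  · have h1 : I0 * (FC * ((C + 1) * (t + 1)) + 1) + 1 ≤ c1 * (t + 1) := by
      rw [hc1]
      have e : (I0 * (FC * (C + 1) + 1) + 1) * (t + 1) =
          I0 * (FC * ((C + 1) * (t + 1)) + 1) + 1 + (I0 * t + t) := by ring
      rw [e]
      exact Nat.le_add_right _ _
    refine le_trans (Nat.mul_le_mul_left _ h1) ?_
    have h2 : (t + 1) * z ^ (2 * (K + 1)) ≤ 2 * X := by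
      have : (t + 1) * z ^ (2 * (K + 1)) = z ^ (2 * (K + 1)) * t + z ^ (2 * (K + 1)) := by ring
      have h0 := Nat.zero_le (X % z ^ (2 * (K + 1)))
      linarith
    have hzp : 0 < z ^ (K + 2) := Nat.pow_pos hz1
    refine Nat.le_of_mul_le_mul_right ?_ hzp
    calc z ^ K * (c1 * (t + 1)) * z ^ (K + 2)
        = c1 * ((t + 1) * z ^ (2 * (K + 1))) := by
          rw [show 2 * (K + 1) = K + (K + 2) by ring, pow_add]
          ring
      _ ≤ c1 * (2 * X) := Nat.mul_le_mul_left _ h2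
      _ = X * (2 * c1) := by ring
      _ ≤ X * z := Nat.mul_le_mul_left _ hz2
      _ ≤ X * z ^ (K + 2) := by
          refine Nat.mul_le_mul_left _ ?_
          calc z = z ^ 1 := by ring
            _ ≤ z ^ (K + 2) := Nat.pow_le_pow_right hz1 (by omega)
  · have h1 : X ≤ (t + 1) * z ^ (2 * (K + 1)) := by
      have : (t + 1) * z ^ (2 * (K + 1)) = z ^ (2 * (K + 1)) * t + z ^ (2 * (K + 1)) := by ring
      linarith
    have hdn : d * n ≠ 0 := by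
      have : 0 < d * n := Nat.mul_pos (by omega) (by omega)
      omega
    have h2 : C ≤ (C + 1) ^ (d * n) :=
      le_trans (Nat.le_succ C) (Nat.le_self_pow hdn _)
    have h3 : 2 * (K + 1) * (d * n) ≤ 4 * n * (K + 1) := by
      calc 2 * (K + 1) * (d * n) ≤ 2 * (K + 1) * (2 * n) := by gcongr
        _ = 4 * n * (K + 1) := by ring
    calc C * X ^ (d * n) ≤ (C + 1) ^ (d * n) * ((t + 1) * z ^ (2 * (K + 1))) ^ (d * n) := by
          gcongr
      _ = z ^ (2 * (K + 1) * (d * n)) * ((C + 1) * (t + 1)) ^ (d * n) := by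
          rw [mul_pow, mul_pow, ← pow_mul]
          ring
      _ ≤ _ := by
          refine Nat.mul_le_mul_right _ (Nat.pow_le_pow_right hz1 h3)

theorem succ_le_sq {z : ℕ} (hz : 2 ≤ z) : z + 1 ≤ z ^ 2 := by nlinarith

open Classical in
theorem core
    (n D k : ℕ) (hn : 1 ≤ n) (Cm : ℝ) : ∃ (Y0 : ℕ) (ε : ℝ), 0 < ε ∧
    ∀ (G : Type) [AddCommGroup G] (S : Sys (2 * n) G), S.D = D → (∀ q, Y0 ≤ S.nm q) → S.Mert Cm →
    ∀ bad : Set S.Q,
    (∀ x : ℕ, 1 ≤ x → ∑ q ∈ (S.le x).filter (fun q => q ∈ bad), Real.log (S.nm q) / S.nm q ≤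
      ε * Real.log x) →
    ∀ (F : Fin k → Fac n S),
    (∀ q ∈ bad, ∀ g ∈ S.E q, g ∈ S.Γ q ∨ ∃ l, ∃ p : (F l).P, (F l).un p = q ∧ g ∈ (F l).Λ p) →
    ∀ (Γ0 : AddSubgroup G) (x0 : G) (τ : ℕ → G) (C : ℕ), Γ0.index ≠ 0 →
    (∀ T : Finset S.Q, Γ0 ⊔ T.inf S.Γ = ⊤) →
    -- the cofactor of a bad prime
    (∀ X : ℕ, 1 ≤ X → ∀ g ∈ bx S.e (τ X) X, g - x0 ∈ Γ0 → ∀ l, ∀ p : (F l).P,
      (F l).un p ∈ bad → g ∈ (F l).Λ p → ∃ q, g ∈ S.E q ∧
        S.nm q * (F l).pn p ≤ C * X ^ ((F l).d * n)) →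
    -- common divisors
    (∀ X : ℕ, 1 ≤ X → ∀ g ∈ bx S.e (τ X) X, ∀ q, g ∈ S.Γ q → S.nm q ≤ C * X ^ n) →
    (∀ q, ∀ ρ : ℕ, S.nm q ≤ ρ ^ n → Rad S.e (S.Γ q) (C * ρ)) →
    (∀ T : Finset S.Q, ∑ q ∈ T, (S.nm q : ℝ) ^ (-(3 / 2) : ℝ) ≤ C) →
    ∃ X0 : ℕ, ∀ X : ℕ, X0 ≤ X → (X : ℝ) ^ ((2 * n : ℝ) - 1 / 2) ≤
      ((bx S.e (τ X) X).filter (fun g => g - x0 ∈ Γ0 ∧ (∀ q ∈ bad, g ∉ S.E q) ∧
        ∀ q, g ∉ S.Γ q)).card := by
  obtain ⟨K, Y1, zs, hs⟩ := sift (2 * n) D Cm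
  obtain ⟨Y2, C', hVr⟩ := V_ratio D Cm (4 * n * (K + 1))
  obtain ⟨Y3, c, hc, hVl⟩ := V_lower D Cm (δ := 1 / 4) (by norm_num)
  set B : ℕ := 4 * n * (K + 1) * (K + 1) + 2 with hB
  set A : ℕ := 4 * n * (K + 1) with hA
  have hn0 : (0 : ℝ) < n := by exact_mod_cast hn
  have hB0 : (0 : ℝ) < B := by
    rw [hB]
    positivity
  have hA1 : 1 ≤ A := by
    rw [hA]
    have : 0 < 4 * n * (K + 1) := by positivity
    omega
  have hA0 : (0 : ℝ) < A := by exact_mod_cast hA1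
  refine ⟨max Y1 (max Y2 Y3), 1 / (40 * n * B * (k + 1) * (|C'| + 1)), by positivity, ?_⟩
  intro G _ S hD hY hM bad hbad F hcov Γ0 x0 τ C hΓ0 h0 hcof hgcd hrad hsum
  have hs' := hs G S hD (fun q => le_trans (le_max_left _ _) (hY q)) hM
  have hVr' := hVr (2 * n) G S hD
    (fun q => le_trans (le_trans (le_max_left _ _) (le_max_right _ _)) (hY q)) hM
  have hVl' := hVl (2 * n) G S hD
    (fun q => le_trans (le_trans (le_max_right _ _) (le_max_right _ _)) (hY q)) hM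
  set I0 : ℕ := Γ0.index with hI0
  have hI0r : (0 : ℝ) < I0 := by exact_mod_cast Nat.pos_of_ne_zero hΓ0
  set FC : ℕ := ∑ l, (F l).C with hFCdef
  have hFC : ∀ l, (F l).C ≤ FC := fun l =>
    Finset.single_le_sum (f := fun l => (F l).C) (fun _ _ => Nat.zero_le _) (Finset.mem_univ l)
  set c1 : ℕ := I0 * (FC * (C + 1) + 1) + 1 with hc1
  -- the real constant
  set R1 : ℝ := 8 * I0 * ((1 + 2 * C * (C + 1)) ^ (2 * n) * C) / c with hR1
  set R2 : ℝ := 8 * I0 / (3 * c) with hR2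
  set Z : ℕ := zs + 2 + C + (I0 + 1) + 2 * c1 + ⌈R1 ^ 4⌉₊ + ⌈R2 ^ 4⌉₊ with hZ
  refine ⟨Z ^ B + 1, fun X hX => ?_⟩
  obtain ⟨z, hzX, hXz⟩ := exists_root B X (by omega)
  have hzZ : Z ≤ z := by
    by_contra hlt
    push Not at hlt
    have h1 : (z + 1) ^ B ≤ Z ^ B := Nat.pow_le_pow_left (by omega) B
    omega
  have hz1 : 1 ≤ z := by omega
  have hX1 : 1 ≤ X := by omega
  have hz2 : 2 * c1 ≤ z := by omega
  set z0 : ℕ := z ^ A with hz0
  have hzz0 : z ≤ z0 := Nat.le_self_pow (by omega) z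
  have hz0X : z0 ≤ X := by
    refine le_trans (Nat.pow_le_pow_right hz1 ?_) hzX
    rw [hB]
    nlinarith
  have hz0pos : 0 < z0 := by omega
  have hz0r : (0 : ℝ) < z0 := by exact_mod_cast hz0pos
  have hXr : (0 : ℝ) < X := by exact_mod_cast hX1
  have hzr : (0 : ℝ) < z := by exact_mod_cast hz1
  -- the products
  have hVz0 : 0 < S.V z0 :=
    lt_of_lt_of_le (mul_pos hc (Real.rpow_pos_of_pos hz0r _)) (hVl' z0 (by omega))
  have hVz : 0 < S.V z :=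
    lt_of_lt_of_le (mul_pos hc (Real.rpow_pos_of_pos hzr _)) (hVl' z hz1)
  have hVzz : S.V z ≤ |C'| * S.V z0 :=
    (hVr' z z0 (by omega) hzz0 le_rfl).trans
      (mul_le_mul_of_nonneg_right (le_abs_self _) hVz0.le)
  set t : ℕ := X / z ^ (2 * (K + 1)) with ht
  -- the sieved set
  have hS : 3 / 4 * ((X : ℝ) ^ (2 * n) / I0 * S.V z0) ≤
      (((bx S.e (τ X) X).filter (fun g => g - x0 ∈ Γ0 ∧ ∀ q ∈ S.le z0, g ∉ S.E q)).card : ℝ) := by
    have hr0 : Rad S.e Γ0 (I0 * (0 + 1)) := by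
      have h1 : Rad S.e (⊤ : AddSubgroup G) 0 := fun g => ⟨g, AddSubgroup.mem_top g, fun i => by
        simp⟩
      have h2 := rad_inf_index h1 hΓ0
      rwa [inf_top_eq] at h2
    have hX' : z0 ^ K * (I0 * (0 + 1) + 1) ≤ X := by
      calc z0 ^ K * (I0 * (0 + 1) + 1) ≤ z0 ^ K * z := by
            refine Nat.mul_le_mul_left _ ?_
            omega
        _ = z ^ (A * K + 1) := by
            rw [hz0, ← pow_mul, pow_succ]
        _ ≤ z ^ B := by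
            refine Nat.pow_le_pow_right hz1 ?_
            rw [hB]
            nlinarith
        _ ≤ X := hzX
    have h1 := hs' z0 (by omega) Γ0 (I0 * (0 + 1)) X (τ X) x0 hΓ0 (fun T _ => h0 T) hr0 hX'
    rw [abs_le] at h1
    linarith [h1.1]
  -- common divisors
  have hB1 : (((bx S.e (τ X) X).filter (fun g => ∃ q, z0 < S.nm q ∧ g ∈ S.Γ q)).card : ℝ) ≤
      1 / 8 * ((X : ℝ) ^ (2 * n) / I0 * S.V z0) := by
    refine (gcd_part hn S C (τ X) X z0 hX1 (by omega) (hgcd X hX1) hrad hsum).trans ?_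
    have h1 : c * (z0 : ℝ) ^ (-(1 / 4) : ℝ) ≤ S.V z0 := hVl' z0 (by omega)
    have h2 : R1 ≤ (z0 : ℝ) ^ (1 / 4 : ℝ) := by
      have h3 : R1 ^ 4 ≤ z0 := by
        refine (Nat.le_ceil _).trans ?_
        exact_mod_cast (by omega : ⌈R1 ^ 4⌉₊ ≤ z0)
      have hR0 : 0 ≤ R1 := by positivity
      calc R1 = (R1 ^ 4) ^ (1 / 4 : ℝ) := by
            rw [← Real.rpow_natCast, ← Real.rpow_mul hR0]
            norm_num
        _ ≤ _ := Real.rpow_le_rpow (by positivity) h3 (by norm_num)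
    have h4 : (z0 : ℝ) ^ (-(1 / 2) : ℝ) * (z0 : ℝ) ^ (1 / 4 : ℝ) = (z0 : ℝ) ^ (-(1 / 4) : ℝ) := by
      rw [← Real.rpow_add hz0r]
      norm_num
    have hp : 0 < (z0 : ℝ) ^ (-(1 / 2) : ℝ) := Real.rpow_pos_of_pos hz0r _
    have h5 : R1 * (z0 : ℝ) ^ (-(1 / 2) : ℝ) ≤ (z0 : ℝ) ^ (-(1 / 4) : ℝ) := by
      rw [← h4, mul_comm]
      exact mul_le_mul_of_nonneg_left h2 hp.le
    have h6 : 8 * I0 * ((1 + 2 * C * (C + 1)) ^ (2 * n) * C) * (z0 : ℝ) ^ (-(1 / 2) : ℝ) ≤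
        S.V z0 := by
      refine le_trans ?_ h1
      have h7 : 8 * I0 * ((1 + 2 * C * (C + 1)) ^ (2 * n) * C) * (z0 : ℝ) ^ (-(1 / 2) : ℝ) =
          c * (R1 * (z0 : ℝ) ^ (-(1 / 2) : ℝ)) := by
        rw [hR1]
        field_simp
      rw [h7]
      exact mul_le_mul_of_nonneg_left h5 hc.le
    have hX2 : (0 : ℝ) < (X : ℝ) ^ (2 * n) := by positivity
    calc (1 + 2 * (C : ℝ) * (C + 1)) ^ (2 * n) * C * (X : ℝ) ^ (2 * n) *
          (z0 : ℝ) ^ (-(1 / 2) : ℝ)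
        = 1 / 8 * ((X : ℝ) ^ (2 * n) / I0 *
          (8 * I0 * ((1 + 2 * C * (C + 1)) ^ (2 * n) * C) * (z0 : ℝ) ^ (-(1 / 2) : ℝ))) := by
          field_simp
      _ ≤ _ := by
          refine mul_le_mul_of_nonneg_left ?_ (by norm_num)
          exact mul_le_mul_of_nonneg_left h6 (by positivity)
  -- bad primes
  have hB2 : (((bx S.e (τ X) X).filter (fun g => g - x0 ∈ Γ0 ∧ (∀ q ∈ S.le z0, g ∉ S.E q) ∧
        ∃ l, ∃ p : (F l).P, (F l).un p ∈ bad ∧ g ∈ (F l).Λ p ∧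
          g ∈ S.E ((F l).un p))).card : ℝ) ≤
      1 / 4 * ((X : ℝ) ^ (2 * n) / I0 * S.V z0) := by
    have hbp := bad_part S K zs hs' bad F hΓ0 h0 (z := z) (z0 := z0) (t := t) (C := C) (FC := FC)
      (X := X) (M := X ^ (2 * n)) (by omega) hzz0 hz0pos hVz.le hFC
      (nat_conds (d := 1) hn le_rfl (by omega) hz2 hz1 hc1 hzX ht).1
      (fun l => (nat_conds hn (F l).one_le (F l).le_two hz2 hz1 hc1 hzX ht).2) (τ X) x0
      (hcof X hX1)
      (fun l => by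
        refine Nat.mul_le_mul (by omega) (Nat.pow_le_pow_right hX1 ?_)
        exact Nat.mul_le_mul_right _ (F l).le_two)
    refine hbp.trans ?_
    have hM1 : 1 ≤ X ^ (2 * n) := Nat.one_le_pow _ _ hX1
    have ht1 := bad_tail S bad _ hbad (z0 := z0) (M := X ^ (2 * n)) (by omega) hM1
    have hlz : 0 < Real.log z := Real.log_pos (by exact_mod_cast (by omega : 1 < z))
    have hlz0 : Real.log z0 = A * Real.log z := by
      rw [hz0]
      push_cast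
      rw [Real.log_pow]
    have hlX : Real.log X ≤ 2 * B * Real.log z := by
      have h1 : X ≤ z ^ (2 * B) := by
        refine le_trans hXz.le ?_
        rw [pow_mul]
        exact Nat.pow_le_pow_left (succ_le_sq (by omega)) B
      have h2 : Real.log X ≤ Real.log ((z : ℝ) ^ (2 * B)) :=
        Real.log_le_log hXr (by exact_mod_cast h1)
      rw [Real.log_pow] at h2
      push_cast at h2
      exact h2
    have htail : ∑ q ∈ (S.le (X ^ (2 * n))).filter (fun q => q ∈ bad ∧ z0 < S.nm q),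
        (1 : ℝ) / S.nm q ≤ 1 / (10 * (k + 1) * (|C'| + 1)) := by
      refine ht1.trans ?_
      push_cast
      rw [Real.log_pow, hlz0, div_le_iff₀ (by positivity)]
      push_cast
      calc 1 / (40 * (n : ℝ) * B * (k + 1) * (|C'| + 1)) * (2 * n * Real.log X)
          ≤ 1 / (40 * (n : ℝ) * B * (k + 1) * (|C'| + 1)) * (2 * n * (2 * B * Real.log z)) := by
            gcongr
        _ = 1 / (10 * (k + 1) * (|C'| + 1)) * (1 * Real.log z) := by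
            field_simp
            ring
        _ ≤ 1 / (10 * (k + 1) * (|C'| + 1)) * (A * Real.log z) := by
            gcongr
            exact_mod_cast hA1
    have hk : (k : ℝ) * (2 * ∑ q ∈ (S.le (X ^ (2 * n))).filter
        (fun q => q ∈ bad ∧ z0 < S.nm q), (1 : ℝ) / S.nm q) ≤ 1 / (5 * (|C'| + 1)) := by
      calc (k : ℝ) * (2 * ∑ q ∈ (S.le (X ^ (2 * n))).filter
            (fun q => q ∈ bad ∧ z0 < S.nm q), (1 : ℝ) / S.nm q)
          ≤ (k + 1 : ℝ) * (2 * (1 / (10 * (k + 1) * (|C'| + 1)))) := by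
            gcongr
            linarith
        _ = 1 / (5 * (|C'| + 1)) := by
            field_simp
            norm_num
    have hX2 : (0 : ℝ) < (X : ℝ) ^ (2 * n) := by positivity
    calc 5 / 4 * ((X : ℝ) ^ (2 * n) / I0 * S.V z) * ((k : ℝ) * (2 *
          ∑ q ∈ (S.le (X ^ (2 * n))).filter (fun q => q ∈ bad ∧ z0 < S.nm q),
            (1 : ℝ) / S.nm q))
        ≤ 5 / 4 * ((X : ℝ) ^ (2 * n) / I0 * (|C'| * S.V z0)) * (1 / (5 * (|C'| + 1))) := by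
          gcongr
      _ = 1 / 4 * ((X : ℝ) ^ (2 * n) / I0 * S.V z0) * (|C'| / (|C'| + 1)) := by
          field_simp
      _ ≤ 1 / 4 * ((X : ℝ) ^ (2 * n) / I0 * S.V z0) * 1 := by
          refine mul_le_mul_of_nonneg_left ?_ (by positivity)
          rw [div_le_one (by positivity)]
          linarith
      _ = _ := by ring
  -- the union
  have hunion : (bx S.e (τ X) X).filter (fun g => g - x0 ∈ Γ0 ∧ ∀ q ∈ S.le z0, g ∉ S.E q) ⊆
      (bx S.e (τ X) X).filter (fun g => g - x0 ∈ Γ0 ∧ (∀ q ∈ bad, g ∉ S.E q) ∧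
        ∀ q, g ∉ S.Γ q) ∪ ((bx S.e (τ X) X).filter (fun g => ∃ q, z0 < S.nm q ∧ g ∈ S.Γ q) ∪
      (bx S.e (τ X) X).filter (fun g => g - x0 ∈ Γ0 ∧ (∀ q ∈ S.le z0, g ∉ S.E q) ∧
        ∃ l, ∃ p : (F l).P, (F l).un p ∈ bad ∧ g ∈ (F l).Λ p ∧ g ∈ S.E ((F l).un p))) := by
    intro g hg
    rw [Finset.mem_filter] at hg
    rw [Finset.mem_union, Finset.mem_union, Finset.mem_filter, Finset.mem_filter,
      Finset.mem_filter]
    by_cases hΓ : ∃ q, g ∈ S.Γ q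
    · obtain ⟨q, hq⟩ := hΓ
      refine Or.inr (Or.inl ⟨hg.1, q, ?_, hq⟩)
      by_contra hc
      exact hg.2.2 q (S.mem_le.mpr (not_lt.mp hc)) (S.sub q g hq)
    · push Not at hΓ
      by_cases hE : ∃ q ∈ bad, g ∈ S.E q
      · obtain ⟨q, hqb, hqE⟩ := hE
        rcases hcov q hqb g hqE with h | ⟨l, p, hp, hgp⟩
        · exact absurd h (hΓ q)
        · refine Or.inr (Or.inr ⟨hg.1, hg.2.1, hg.2.2, l, p, ?_, hgp, ?_⟩)
          · rw [hp]
            exact hqb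
          · rw [hp]
            exact hqE
      · push Not at hE
        exact Or.inl ⟨hg.1, hg.2.1, hE, hΓ⟩
  have hcard := (Finset.card_le_card hunion).trans ((Finset.card_union_le _ _).trans
    (Nat.add_le_add_left (Finset.card_union_le _ _) _))
  have hcardr : (((bx S.e (τ X) X).filter (fun g => g - x0 ∈ Γ0 ∧
      ∀ q ∈ S.le z0, g ∉ S.E q)).card : ℝ) ≤
      (((bx S.e (τ X) X).filter (fun g => g - x0 ∈ Γ0 ∧ (∀ q ∈ bad, g ∉ S.E q) ∧
        ∀ q, g ∉ S.Γ q)).card : ℝ) +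
      ((((bx S.e (τ X) X).filter (fun g => ∃ q, z0 < S.nm q ∧ g ∈ S.Γ q)).card : ℝ) +
      (((bx S.e (τ X) X).filter (fun g => g - x0 ∈ Γ0 ∧ (∀ q ∈ S.le z0, g ∉ S.E q) ∧
        ∃ l, ∃ p : (F l).P, (F l).un p ∈ bad ∧ g ∈ (F l).Λ p ∧
          g ∈ S.E ((F l).un p))).card : ℝ)) := by
    exact_mod_cast hcard
  have hfin : 3 / 8 * ((X : ℝ) ^ (2 * n) / I0 * S.V z0) ≤
      (((bx S.e (τ X) X).filter (fun g => g - x0 ∈ Γ0 ∧ (∀ q ∈ bad, g ∉ S.E q) ∧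
        ∀ q, g ∉ S.Γ q)).card : ℝ) := by linarith
  refine le_trans ?_ hfin
  -- the lower bound
  have h1 : c * (z0 : ℝ) ^ (-(1 / 4) : ℝ) ≤ S.V z0 := hVl' z0 (by omega)
  have h2 : (X : ℝ) ^ (-(1 / 4) : ℝ) ≤ (z0 : ℝ) ^ (-(1 / 4) : ℝ) := by
    refine Real.rpow_le_rpow_of_nonpos hz0r ?_ (by norm_num)
    exact_mod_cast hz0X
  have h3 : R2 ≤ (X : ℝ) ^ (1 / 4 : ℝ) := by
    have h4 : R2 ^ 4 ≤ X := by
      refine (Nat.le_ceil _).trans ?_
      exact_mod_cast (by omega : ⌈R2 ^ 4⌉₊ ≤ X)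
    have hR0 : 0 ≤ R2 := by positivity
    calc R2 = (R2 ^ 4) ^ (1 / 4 : ℝ) := by
          rw [← Real.rpow_natCast, ← Real.rpow_mul hR0]
          norm_num
      _ ≤ _ := Real.rpow_le_rpow (by positivity) h4 (by norm_num)
  have h5 : (X : ℝ) ^ ((2 * n : ℝ) - 1 / 2) * ((X : ℝ) ^ (1 / 4 : ℝ)) =
      (X : ℝ) ^ (2 * n) * (X : ℝ) ^ (-(1 / 4) : ℝ) := by
    rw [← Real.rpow_natCast X (2 * n), ← Real.rpow_add hXr, ← Real.rpow_add hXr]
    push_cast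
    congr 1
    ring
  have hp : 0 < (X : ℝ) ^ ((2 * n : ℝ) - 1 / 2) := Real.rpow_pos_of_pos hXr _
  have hX2 : (0 : ℝ) < (X : ℝ) ^ (2 * n) := by positivity
  calc (X : ℝ) ^ ((2 * n : ℝ) - 1 / 2)
      = (X : ℝ) ^ ((2 * n : ℝ) - 1 / 2) * (3 * c / (8 * I0) * R2) := by
        rw [hR2]
        field_simp
    _ ≤ (X : ℝ) ^ ((2 * n : ℝ) - 1 / 2) * (3 * c / (8 * I0) * (X : ℝ) ^ (1 / 4 : ℝ)) := by
        gcongr
    _ = 3 / 8 * ((X : ℝ) ^ (2 * n) / I0 * (c * (X : ℝ) ^ (-(1 / 4) : ℝ))) := by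
        have : (X : ℝ) ^ ((2 * n : ℝ) - 1 / 2) * (3 * c / (8 * I0) * (X : ℝ) ^ (1 / 4 : ℝ)) =
            3 * c / (8 * I0) * ((X : ℝ) ^ ((2 * n : ℝ) - 1 / 2) * ((X : ℝ) ^ (1 / 4 : ℝ))) := by
          ring
        rw [this, h5]
        field_simp
    _ ≤ 3 / 8 * ((X : ℝ) ^ (2 * n) / I0 * S.V z0) := by
        have h6 : c * (X : ℝ) ^ (-(1 / 4) : ℝ) ≤ S.V z0 :=
          le_trans (mul_le_mul_of_nonneg_left h2 hc.le) h1
        gcongr

end Pool.Agent.Helper79.CB
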