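import Pool.Agent.Helper23.CB.Inst3
import Pool.Agent.Helper14.CB.Hv

/-!
# Project CB, degree 3: ROOT
-/

set_option autoImplicit false

namespace Pool.Agent.Helper79.CB

open NumberField Polynomial Finset Pool.Agent.Helper4.CB Pool.Agent.Helper25.CB
  Pool.Agent.Helper35.CB Pool.Agent.Helper23.CB

variable {K : Type} [Field K] [NumberField K] {m : ℕ}

/-- a root modulo `I` from a value in `I` -/
theorem root_of_mem' (P : (𝓞 K)[X]) (hP : P.Monic) (I : Ideal (𝓞 K)) (m : 𝓞 K) (g : 𝓞 K × 𝓞 K)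
    (h : hv P g.1 (m * g.2) ∈ I)
    (hcop : ∀ q : Ideal (𝓞 K), q.IsPrime → I ≤ q → m ∉ q ∧ ¬ (g.1 ∈ q ∧ g.2 ∈ q)) :
    ∃ t : Rt P I, g ∈ Lam I (rep t * m) := by
  -- `m v` is a unit modulo `I`
  have htop : Ideal.span {m * g.2} ⊔ I = ⊤ := by
    by_contra hne
    obtain ⟨q, hq, hle⟩ := Ideal.exists_le_maximal _ hne
    have hIq : I ≤ q := le_sup_right.trans hle
    have h1 : m * g.2 ∈ q := hle (Ideal.mem_sup_left (Ideal.mem_span_singleton_self _))
    obtain ⟨hmq, hgq⟩ := hcop q hq.isPrime hIq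
    have h2 : g.2 ∈ q := (hq.isPrime.mem_or_mem h1).resolve_left hmq
    have h3 : g.1 ^ P.natDegree ∈ q := by
      have h4 : hv P g.1 (m * g.2) - g.1 ^ P.natDegree ∈ q :=
        q.mem_of_dvd (Pool.Agent.Helper14.CB.hv_sub hP g.1 (m * g.2)) h1
      have h5 := q.sub_mem (hIq h) h4
      rwa [sub_sub_cancel] at h5
    exact hgq ⟨hq.isPrime.mem_of_pow_mem _ h3, h2⟩
  have h1 : (1 : 𝓞 K) ∈ Ideal.span {m * g.2} ⊔ I := by
    rw [htop]
    trivial
  obtain ⟨a, ha, w, hw, hzw⟩ := Submodule.mem_sup.1 h1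
  obtain ⟨y, rfl⟩ := Ideal.mem_span_singleton'.1 ha
  -- `s = u y` is a root
  have hu : Ideal.Quotient.mk I g.1 = Ideal.Quotient.mk I (m * g.2) *
      Ideal.Quotient.mk I (g.1 * y) := by
    rw [← map_mul, Ideal.Quotient.eq]
    have : g.1 - m * g.2 * (g.1 * y) = g.1 * w := by
      calc g.1 - m * g.2 * (g.1 * y) = g.1 * (1 - y * (m * g.2)) := by ring
        _ = g.1 * w := by
          rw [← hzw]
          ring
    rw [this]
    exact I.mul_mem_left _ hw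
  have hunit : IsUnit (Ideal.Quotient.mk I (m * g.2)) := by
    refine IsUnit.of_mul_eq_one (Ideal.Quotient.mk I y) ?_
    rw [← map_mul, ← map_one (Ideal.Quotient.mk I), Ideal.Quotient.eq]
    have : m * g.2 * y - 1 = - w := by
      rw [← hzw]
      ring
    rw [this]
    exact I.neg_mem hw
  have hroot : (P.map (Ideal.Quotient.mk I)).eval (Ideal.Quotient.mk I (g.1 * y)) = 0 := by
    have h2 : Ideal.Quotient.mk I (hv P g.1 (m * g.2)) = 0 :=
      Ideal.Quotient.eq_zero_iff_mem.mpr h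
    have h3 : Ideal.Quotient.mk I (hv P g.1 (m * g.2)) =
        Ideal.Quotient.mk I (m * g.2) ^ P.natDegree *
          (P.map (Ideal.Quotient.mk I)).eval (Ideal.Quotient.mk I (g.1 * y)) := by
      unfold hv
      rw [← Polynomial.eval₂_at_apply, hu, Polynomial.scaleRoots_eval₂_mul, Polynomial.eval_map]
    rw [h3] at h2
    exact (IsUnit.mul_right_eq_zero (hunit.pow _)).mp h2
  refine ⟨⟨Ideal.Quotient.mk I (g.1 * y), hroot⟩, ?_⟩
  rw [mem_Lam, ← Ideal.Quotient.eq_zero_iff_mem, map_sub, map_mul, map_mul, mk_rep, hu]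
  simp only [map_mul]
  ring

/-- **ROOT.**  `v` is a unit modulo `I`, `t = u / (m v)`. -/
theorem root_of_mem (P : (𝓞 K)[X]) (hP : P.Monic) (I : Im K m) (g : 𝓞 K × 𝓞 K)
    (h : hv P g.1 (m * g.2) ∈ I.1)
    (hcop : ∀ q ∈ pf I, ¬ (g.1 ∈ q.1.asIdeal ∧ g.2 ∈ q.1.asIdeal)) :
    ∃ t : Rt P I.1, g ∈ Lam I.1 (rep t * m) := by
  refine root_of_mem' P hP I.1 (m : 𝓞 K) g h (fun q hq hIq => ?_)
  obtain ⟨q', hq', rfl⟩ := exists_pf I q hq hIq
  exact ⟨q'.2, hcop q' hq'⟩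

end Pool.Agent.Helper79.CB
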